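import Pool.Agent.L7h7.GJ.Stm

set_option autoImplicit false

/-!
# Project GJ, part GSTEP: geometry of one stacking
-/

namespace Pool.Agent.L7h64.GJ

open Pool.Agent.L7h7.GJ
open scoped BigOperators Topology
open MeasureTheory Filter

/-- Affine functions at an average. -/
theorem aff_avg {d : ℕ} (hd : 1 ≤ d) (h : E d →ᵃ[ℝ] ℝ) (w : Fin (d + 1) → E d)
    (i : Fin (d + 1)) :
    h ((1 / (d : ℝ)) • ∑ m ∈ Finset.univ.erase i, w m)
      = (1 / (d : ℝ)) * ∑ m ∈ Finset.univ.erase i, h (w m) := by
  have hv : ∀ y : E d, h y = h.linear y + h 0 := fun y => by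
    have := congrFun (AffineMap.decomp h) y
    simpa using this
  have hd' : (d : ℝ) ≠ 0 := by positivity
  have hc : (Finset.univ.erase i).card = d := by
    rw [Finset.card_erase_of_mem (Finset.mem_univ i)]; simp
  rw [hv]
  simp_rw [fun m => hv (w m)]
  rw [map_smul, map_sum, Finset.sum_add_distrib, Finset.sum_const, hc]
  simp only [smul_eq_mul, nsmul_eq_mul]
  field_simp

/-- The affine span of at most `d` points is a proper subspace. -/
theorem span_ne_top {d : ℕ} {ι : Type} (p : ι → E d) (A : Finset ι) (hA : A.card ≤ d) :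
    affineSpan ℝ (p '' (A : Set ι)) ≠ ⊤ := by
  classical
  intro h
  rcases Nat.eq_zero_or_pos A.card with h0 | h0
  · rw [Finset.card_eq_zero] at h0
    subst h0
    have hz : (0 : E d) ∈ affineSpan ℝ (p '' ((∅ : Finset ι) : Set ι)) := by
      rw [h]; exact AffineSubspace.mem_top ℝ (E d) 0
    simp only [Finset.coe_empty, Set.image_empty, AffineSubspace.span_empty] at hz
    exact AffineSubspace.notMem_bot ℝ (E d) 0 hz
  · obtain ⟨n, hn⟩ : ∃ n, A.card = n + 1 := ⟨A.card - 1, by omega⟩
    have h1 := finrank_vectorSpan_image_finset_le ℝ p A hn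
    rw [Finset.coe_image] at h1
    have h2 : vectorSpan ℝ (p '' (A : Set ι)) = ⊤ := by
      rw [← direction_affineSpan, h, AffineSubspace.direction_top]
    rw [h2, finrank_top, finrank_euclideanSpace, Fintype.card_fin] at h1
    omega

/-- A nonempty open set has a point outside finitely many proper affine subspaces. -/
theorem exists_avoid {d : ℕ} {ι : Type} {L : Set ι} (hL : L.Finite) (p : ι → E d)
    {O : Set (E d)} (hO : IsOpen O) (hne : O.Nonempty) :
    ∃ v ∈ O, ∀ A : Finset ι, (A : Set ι) ⊆ L → A.card ≤ d →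
      v ∉ affineSpan ℝ (p '' (A : Set ι)) := by
  classical
  set F : Set (Finset ι) := {A | (A : Set ι) ⊆ L ∧ A.card ≤ d} with hF
  have hFf : F.Finite := by
    refine Set.Finite.subset (hL.toFinset.powerset).finite_toSet ?_
    intro A hA
    simp only [Finset.coe_powerset, Set.mem_preimage, Set.mem_powerset_iff, Set.Finite.coe_toFinset]
    exact hA.1
  set U : Set (E d) := ⋃ A ∈ F, (affineSpan ℝ (p '' (A : Set ι)) : Set (E d)) with hU
  have hU0 : volume U = 0 := by
    rw [hU, measure_biUnion_null_iff hFf.countable]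
    intro A hA
    exact Measure.addHaar_affineSubspace volume _ (span_ne_top p A hA.2)
  have hOp : 0 < volume O := hO.measure_pos volume hne
  have hdiff : (O \ U).Nonempty := by
    by_contra hcon
    rw [Set.not_nonempty_iff_eq_empty, Set.diff_eq_empty] at hcon
    have := measure_mono (μ := volume) hcon
    rw [hU0] at this
    exact absurd hOp (not_lt.mpr this)
  obtain ⟨v, hv, hvU⟩ := hdiff
  refine ⟨v, hv, fun A hA hc hvA => hvU ?_⟩
  rw [hU]
  exact Set.mem_biUnion (show A ∈ F from ⟨hA, hc⟩) hvA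

theorem s_GSTEP : S_GSTEP := by
  classical
  intro d ι L p s i hd hL hs hsL hGP hE
  have hd1 : 1 ≤ d := by omega
  have hd0 : (0 : ℝ) < d := by positivity
  -- affine basis
  have hind : AffineIndependent ℝ (p ∘ s) := by
    have hA : ((Finset.univ.image s : Finset ι) : Set ι) ⊆ L := by
      intro x hx
      simp only [Finset.coe_image, Finset.coe_univ, Set.image_univ, Set.mem_range] at hx
      obtain ⟨m, rfl⟩ := hx
      exact hsL m
    have hc : (Finset.univ.image s : Finset ι).card ≤ d + 1 := by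
      refine Finset.card_image_le.trans ?_
      simp
    have h1 := hGP _ hA hc
    let e : Fin (d + 1) ↪ (Finset.univ.image s : Finset ι) :=
      ⟨fun m => ⟨s m, Finset.mem_image_of_mem s (Finset.mem_univ m)⟩, fun a b hab => by
        simp only [Subtype.mk.injEq] at hab
        exact hs hab⟩
    exact h1.comp_embedding e
  have hspan : affineSpan ℝ (Set.range (p ∘ s)) = ⊤ := by
    rw [hind.affineSpan_eq_top_iff_card_eq_finrank_add_one]
    simp
  let b : AffineBasis (Fin (d + 1)) ℝ (E d) := ⟨p ∘ s, hind, hspan⟩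
  have hbs : ∀ m, b m = p (s m) := fun m => rfl
  have hbe : ∀ a, b.coord a (p (s a)) = 1 := fun a => by
    have := b.coord_apply_eq a
    rwa [hbs] at this
  have hbne : ∀ a m, a ≠ m → b.coord a (p (s m)) = 0 := fun a m ham => by
    have := b.coord_apply_ne ham
    rwa [hbs] at this
  have hbc : ∀ a, Continuous (b.coord a) := fun a => (b.coord a).continuous_of_finiteDimensional
  -- the facet functional
  obtain ⟨l, c, hl1, hl2⟩ := hE
  have hlm : ∀ m, m ≠ i → l (p (s m)) = c := fun m hm => hl1 _ ⟨m, hm, rfl⟩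
  have hsi : s i ∉ s '' ({i} : Set (Fin (d + 1)))ᶜ := by
    rintro ⟨m, hm, hmi⟩
    exact hm (hs hmi)
  have hli : l (p (s i)) < c := hl2 _ (hsL i) hsi
  -- the centre of the facet
  set z : E d := (1 / (d : ℝ)) • ∑ m ∈ Finset.univ.erase i, p (s m) with hz
  have hcard : (Finset.univ.erase i).card = d := by
    rw [Finset.card_erase_of_mem (Finset.mem_univ i)]; simp
  have hlz : ∀ f : E d →L[ℝ] ℝ, f z = (1 / (d : ℝ)) * ∑ m ∈ Finset.univ.erase i, f (p (s m)) := by
    intro f
    rw [hz, map_smul, map_sum, smul_eq_mul]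
  have hlzc : l z = c := by
    rw [hlz, Finset.sum_congr rfl (fun m hm => hlm m (Finset.ne_of_mem_erase hm)),
      Finset.sum_const, hcard]
    simp only [nsmul_eq_mul]
    field_simp
  have hbz : ∀ a, a ≠ i → b.coord a z = 1 / d := by
    intro a ha
    rw [hz, aff_avg hd1 (b.coord a) (fun m => p (s m)) i,
      Finset.sum_eq_single_of_mem a (Finset.mem_erase.mpr ⟨ha, Finset.mem_univ a⟩)
        (fun m _ hm => hbne a m (Ne.symm hm)), hbe]
    simp
  -- the exposed sets
  set 𝒜 : Set (Set ι) := {A | A ⊆ L ∧ Expo p L A ∧ ¬ (s '' ({i} : Set (Fin (d + 1)))ᶜ ⊆ A)} with h𝒜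
  have h𝒜f : 𝒜.Finite := Set.Finite.subset hL.finite_subsets (fun A hA => hA.1)
  have hch : ∀ A : Set ι, ∃ f : E d →L[ℝ] ℝ, ∃ e : ℝ, A ∈ 𝒜 →
      ((∀ x ∈ A, f (p x) = e) ∧ (∀ x ∈ L, x ∉ A → f (p x) < e)) := by
    intro A
    by_cases hA : A ∈ 𝒜
    · obtain ⟨f, e, h1, h2⟩ := hA.2.1
      exact ⟨f, e, fun _ => ⟨h1, h2⟩⟩
    · exact ⟨0, 0, fun h => absurd h hA⟩
  choose f e hfe using hch
  have hfz : ∀ A ∈ 𝒜, f A z < e A := by
    intro A hA
    obtain ⟨h1, h2⟩ := hfe A hA
    have hle : ∀ m, f A (p (s m)) ≤ e A := fun m => by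
      by_cases hm : s m ∈ A
      · exact (h1 _ hm).le
      · exact (h2 _ (hsL m) hm).le
    obtain ⟨y, ⟨m, hm, hmy⟩, hyA⟩ := Set.not_subset.mp hA.2.2
    subst hmy
    have hlt : ∑ m ∈ Finset.univ.erase i, f A (p (s m)) < ∑ m ∈ Finset.univ.erase i, e A := by
      refine Finset.sum_lt_sum (fun m _ => hle m) ⟨m, Finset.mem_erase.mpr ⟨hm, Finset.mem_univ m⟩, ?_⟩
      exact h2 _ (hsL m) hyA
    rw [Finset.sum_const, hcard, nsmul_eq_mul] at hlt
    rw [hlz, one_div, inv_mul_lt_iff₀ hd0]
    exact hlt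
  -- the open conditions
  have hP1 : ∀ᶠ v in 𝓝 z, ∀ A ∈ 𝒜, f A v < e A := by
    rw [Filter.eventually_all_finite h𝒜f]
    intro A hA
    exact (f A).continuous.continuousAt.eventually_lt continuousAt_const (hfz A hA)
  have hP2 : ∀ᶠ v in 𝓝 z, ∀ a, a ≠ i → 0 < b.coord a v := by
    rw [Filter.eventually_all]
    intro a
    by_cases ha : a = i
    · exact Filter.Eventually.of_forall (fun v h => absurd ha h)
    · have h1 : (0 : ℝ) < b.coord a z := by rw [hbz a ha]; positivity
      have h2 := continuousAt_const.eventually_lt (hbc a).continuousAt h1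
      filter_upwards [h2] with v hv _ using hv
  have hP3 : ∀ᶠ v in 𝓝 z, ∀ a, a ≠ i → ∀ x ∈ L, x ∉ s '' ({i} : Set (Fin (d + 1)))ᶜ →
      (l (p x) - c) * b.coord a v < (l v - c) * b.coord a (p x) := by
    rw [Filter.eventually_all]
    intro a
    by_cases ha : a = i
    · exact Filter.Eventually.of_forall (fun v h => absurd ha h)
    · have h0 : ∀ᶠ v in 𝓝 z, ∀ x ∈ L, x ∉ s '' ({i} : Set (Fin (d + 1)))ᶜ →
          (l (p x) - c) * b.coord a v < (l v - c) * b.coord a (p x) := by
        rw [Filter.eventually_all_finite hL]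
        intro x hx
        by_cases hxs : x ∈ s '' ({i} : Set (Fin (d + 1)))ᶜ
        · exact Filter.Eventually.of_forall (fun v h => absurd hxs h)
        · have h1 : (l (p x) - c) * b.coord a z < (l z - c) * b.coord a (p x) := by
            rw [hlzc, sub_self, zero_mul, hbz a ha]
            have := hl2 x hx hxs
            have h3 : (0 : ℝ) < 1 / d := by positivity
            nlinarith
          have hc1 : ContinuousAt (fun v => (l (p x) - c) * b.coord a v) z :=
            (continuous_const.mul (hbc a)).continuousAt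
          have hc2 : ContinuousAt (fun v => (l v - c) * b.coord a (p x)) z :=
            ((l.continuous.sub continuous_const).mul continuous_const).continuousAt
          have h2 := hc1.eventually_lt hc2 h1
          filter_upwards [h2] with v hv _ using hv
      filter_upwards [h0] with v hv _ using hv
  obtain ⟨U, hU, hUo, hzU⟩ := eventually_nhds_iff.mp ((hP1.and hP2).and hP3)
  have hOo : IsOpen (U ∩ {v | c < l v}) :=
    hUo.inter (isOpen_lt continuous_const l.continuous)
  have hOne : (U ∩ {v | c < l v}).Nonempty := by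
    have hcont : Continuous (fun t : ℝ => z + t • (z - p (s i))) := by fun_prop
    have hU0 : ∀ᶠ t : ℝ in 𝓝 0, z + t • (z - p (s i)) ∈ U := by
      have : (fun t : ℝ => z + t • (z - p (s i))) 0 ∈ U := by simpa using hzU
      exact hcont.continuousAt.eventually_mem (hUo.mem_nhds this)
    have h1 : ∀ᶠ t : ℝ in 𝓝[>] 0, z + t • (z - p (s i)) ∈ U := hU0.filter_mono nhdsWithin_le_nhds
    have h2 : ∀ᶠ t : ℝ in 𝓝[>] 0, (0 : ℝ) < t := eventually_mem_nhdsWithin
    obtain ⟨t, ht1, ht2⟩ := (h1.and h2).exists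
    refine ⟨_, ht1, ?_⟩
    simp only [Set.mem_setOf_eq, map_add, map_smul, map_sub, smul_eq_mul, hlzc]
    nlinarith
  obtain ⟨v, ⟨hvU, hvc⟩, hvA⟩ := exists_avoid hL p hOo hOne
  simp only [Set.mem_setOf_eq] at hvc
  obtain ⟨⟨hv1, hv2⟩, hv3⟩ := hU v hvU
  refine ⟨v, hvA, ?_, ⟨l, ?_⟩, ?_⟩
  · intro A hAL hAE hAs
    have hA : A ∈ 𝒜 := ⟨hAL, hAE, hAs⟩
    exact ⟨f A, e A, (hfe A hA).1, (hfe A hA).2, hv1 A hA⟩
  · intro x hx
    by_cases hxs : x ∈ s '' ({i} : Set (Fin (d + 1)))ᶜ
    · rw [hl1 x hxs]; exact hvc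
    · exact (hl2 x hx hxs).trans hvc
  · intro a ha
    have hba := hv2 a ha
    set κ : ℝ := (l v - c) / b.coord a v with hκ
    have hκ0 : 0 < κ := div_pos (by linarith) hba
    have hκv : κ * b.coord a v = l v - c := by
      rw [hκ]; field_simp
    have hlin : ∀ y : E d, (b.coord a).linear y = b.coord a y - b.coord a 0 := fun y => by
      have := congrFun (AffineMap.decomp (b.coord a)) y
      simp only [Pi.add_apply] at this
      linarith
    refine ⟨l - κ • LinearMap.toContinuousLinearMap (b.coord a).linear, ?_, ?_⟩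
    · intro m hmi hma
      simp only [ContinuousLinearMap.sub_apply, ContinuousLinearMap.smul_apply, smul_eq_mul,
        LinearMap.coe_toContinuousLinearMap', hlin, hlm m hmi, hbne a m (Ne.symm hma)]
      linarith
    · intro x hx hxs
      simp only [ContinuousLinearMap.sub_apply, ContinuousLinearMap.smul_apply, smul_eq_mul,
        LinearMap.coe_toContinuousLinearMap', hlin]
      by_cases hxi : x ∈ s '' ({i} : Set (Fin (d + 1)))ᶜ
      · obtain ⟨m, hm, rfl⟩ := hxi
        have hma : m = a := by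
          by_contra hma
          refine hxs ⟨m, ?_, rfl⟩
          simp only [Set.mem_compl_iff, Set.mem_insert_iff, Set.mem_singleton_iff, not_or]
          exact ⟨hm, hma⟩
        subst hma
        rw [hlm m hm, hbe m]
        nlinarith
      · have h3 := hv3 a ha x hx hxi
        have h4 : l (p x) - c < κ * b.coord a (p x) := by
          rw [hκ, div_mul_eq_mul_div, lt_div_iff₀ hba]
          exact h3
        nlinarith

end Pool.Agent.L7h64.GJ
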